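import Mathlib

open Function DirectSum

universe u

namespace Pool.Agent.Results.MP_fa2e48_al.SumsOfCyclics

/-- `M` is slender over `R`: each `R`-linear map `f : R^ω → M` kills all but finitely many of the
unit vectors `e_n`. -/
def Slender (R M : Type*) [Ring R] [AddCommGroup M] [Module R M] : Prop :=
  ∀ f : (ℕ → R) →ₗ[R] M, {n : ℕ | f (Pi.single n 1) ≠ 0}.Finite

/-- `A` is slender as a left module over its endomorphism ring. -/
def EndSlender (A : Type*) [AddCommGroup A] : Prop := Slender (AddMonoid.End A) A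

section

variable {A : Type*} [AddCommGroup A]

/-- A criterion for not being slender: some nonzero element has a finite orbit span. -/
theorem not_slender_of_finite (u0 : A) (hu0 : u0 ≠ 0) (U : AddSubgroup A)
    (hU : (U : Set A).Finite) (hr : ∀ r : AddMonoid.End A, r u0 ∈ U)
    : ¬ EndSlender A := by
  classical
  intro hsl
  let 𝒰 : Ultrafilter ℕ := Filter.hyperfilter ℕ
  -- partial sums
  let s : (ℕ → AddMonoid.End A) → ℕ → A := fun x n => ∑ k ∈ Finset.range n, x k u0
  have hs : ∀ x n, s x n ∈ (U : Set A) := fun x n => U.sum_mem (fun k _ => hr (x k))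
  have hex : ∀ x, ∃ y : A, ∀ᶠ n in (𝒰 : Filter ℕ), s x n = y := by
    intro x
    have h1 : (U : Set A) ∈ 𝒰.map (s x) := by
      rw [Ultrafilter.mem_map]
      exact Filter.univ_mem' (hs x)
    obtain ⟨y, _, hy⟩ := Ultrafilter.eq_pure_of_finite_mem hU h1
    refine ⟨y, ?_⟩
    have h2 : ({y} : Set A) ∈ 𝒰.map (s x) := by rw [hy]; exact rfl
    exact h2
  choose L hL using hex
  have huniq : ∀ x y, (∀ᶠ n in (𝒰 : Filter ℕ), s x n = y) → L x = y := by
    intro x y h
    obtain ⟨n, h1, h2⟩ := ((hL x).and h).exists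
    rw [← h1, h2]
  let f : (ℕ → AddMonoid.End A) →ₗ[AddMonoid.End A] A :=
    { toFun := L
      map_add' := by
        intro x y
        apply huniq
        filter_upwards [hL x, hL y] with n h1 h2
        rw [← h1, ← h2]
        show ∑ k ∈ Finset.range n, (x k u0 + y k u0) = _
        exact Finset.sum_add_distrib
      map_smul' := by
        intro r x
        apply huniq
        filter_upwards [hL x] with n h1
        rw [← h1]
        show ∑ k ∈ Finset.range n, r (x k u0) = r (∑ k ∈ Finset.range n, x k u0)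
        rw [map_sum] }
  have hf : ∀ n, f (Pi.single n 1) = u0 := by
    intro n
    apply huniq
    have : ∀ᶠ m in (𝒰 : Filter ℕ), n < m := by
      have h1 : (𝒰 : Filter ℕ) ≤ Filter.cofinite := Filter.hyperfilter_le_cofinite
      apply h1
      rw [Filter.mem_cofinite]
      exact (Set.finite_Iic n).subset (fun m hm => by simpa using hm)
    filter_upwards [this] with m hm
    show ∑ k ∈ Finset.range m, (Pi.single n (1 : AddMonoid.End A) : ℕ → AddMonoid.End A) k u0 = u0
    rw [Finset.sum_eq_single n]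
    · simp
    · intro k _ hk
      simp [Pi.single_eq_of_ne hk]
    · intro h
      exact absurd (Finset.mem_range.2 hm) h
  have h := hsl f
  have h2 : {n : ℕ | f (Pi.single n 1) ≠ 0} = Set.univ := by
    ext n
    simp [hf, hu0]
  rw [h2] at h
  exact Set.infinite_univ h

/-- A criterion for being slender. -/
theorem slender_of_independent {ι : Type*} (π : ι → AddMonoid.End A)
    (hπ : ∀ i, π i * π i = π i) (hπ' : ∀ i j, i ≠ j → π i * π j = 0)
    (hfin : ∀ a : A, {i | π i a ≠ 0}.Finite)
    (hsep : ∀ a : A, a ≠ 0 → {j | ∃ r : AddMonoid.End A, π j (r a) ≠ 0}.Infinite) :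
    EndSlender A := by
  classical
  intro f
  by_contra hinf
  have hinf' : {n : ℕ | f (Pi.single n 1) ≠ 0}.Infinite := hinf
  let a : ℕ → A := fun n => f (Pi.single n 1)
  obtain ⟨g, hg1, hg2⟩ := exists_seq_of_forall_finset_exists
    (fun x : ℕ × ι × AddMonoid.End A => π x.2.1 (x.2.2 (a x.1)) ≠ 0)
    (fun x y => x.1 ≠ y.1 ∧ x.2.1 ≠ y.2.1) (by
      intro s _
      obtain ⟨n, hn1, hn2⟩ := hinf'.exists_notMem_finset (s.image (fun x => x.1))
      obtain ⟨j, ⟨r, hr⟩, hj⟩ := (hsep (a n) hn1).exists_notMem_finset (s.image (fun x => x.2.1))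
      refine ⟨(n, j, r), hr, ?_⟩
      intro x hx
      constructor
      · intro h; exact hn2 (Finset.mem_image.2 ⟨x, hx, h⟩)
      · intro h; exact hj (Finset.mem_image.2 ⟨x, hx, h⟩))
  have hne : ∀ k l, k ≠ l → (g k).1 ≠ (g l).1 ∧ (g k).2.1 ≠ (g l).2.1 := by
    intro k l hkl
    rcases lt_or_gt_of_ne hkl with h | h
    · exact hg2 k l h
    · exact ⟨(hg2 l k h).1.symm, (hg2 l k h).2.symm⟩
  -- the element
  let x : ℕ → AddMonoid.End A := fun n =>
    if h : ∃ k, (g k).1 = n then π (g h.choose).2.1 * (g h.choose).2.2 else 0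
  have hx : ∀ k, x (g k).1 = π (g k).2.1 * (g k).2.2 := by
    intro k
    have h : ∃ l, (g l).1 = (g k).1 := ⟨k, rfl⟩
    have h2 : h.choose = k := by
      by_contra h3
      exact (hne _ _ h3).1 h.choose_spec
    show (if h : ∃ l, (g l).1 = (g k).1 then _ else _) = _
    rw [dif_pos h, h2]
  have hx0 : ∀ n, (¬ ∃ k, (g k).1 = n) → x n = 0 := fun n h => dif_neg h
  have key : ∀ k, π (g k).2.1 (f x) ≠ 0 := by
    intro k
    have h1 : π (g k).2.1 • x = Pi.single (g k).1 (π (g k).2.1 * (g k).2.2) := by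
      ext1 n
      show π (g k).2.1 * x n = _
      by_cases hn : ∃ l, (g l).1 = n
      · obtain ⟨l, rfl⟩ := hn
        rw [hx]
        by_cases hkl : l = k
        · subst hkl
          rw [Pi.single_eq_same, ← mul_assoc, hπ]
        · rw [Pi.single_eq_of_ne (hne l k hkl).1, ← mul_assoc,
            hπ' _ _ (hne k l (Ne.symm hkl)).2, zero_mul]
      · rw [hx0 n hn, mul_zero, Pi.single_eq_of_ne]
        intro h
        exact hn ⟨k, h.symm⟩
    have h2 : π (g k).2.1 • x = (π (g k).2.1 * (g k).2.2) • (Pi.single (g k).1 1 : ℕ → _) := by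
      rw [h1]
      ext1 n
      by_cases hn : n = (g k).1
      · subst hn; simp
      · simp [Pi.single_eq_of_ne hn]
    have h3 : π (g k).2.1 (f x) = (π (g k).2.1 * (g k).2.2) (a (g k).1) := by
      have := congrArg f h2
      rw [map_smul, map_smul] at this
      exact this
    rw [h3]
    exact hg1 k
  have hinj : Injective (fun k => (g k).2.1) := by
    intro k l h
    by_contra hkl
    exact (hne k l hkl).2 h
  exact (Set.infinite_range_of_injective hinj) ((hfin (f x)).subset (by
    rintro _ ⟨k, rfl⟩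
    exact key k))

end

section sums

variable {ι : Type u} [DecidableEq ι] {C : ι → Type*} [∀ i, AddCommGroup (C i)]

/-- The projection to the coordinate `i`, as an endomorphism. -/
def proj (i : ι) : AddMonoid.End (⨁ i, C i) :=
  (DirectSum.of C i).comp (DFinsupp.evalAddMonoidHom i)

theorem proj_apply (i : ι) (a : ⨁ i, C i) : proj i a = DirectSum.of C i (a i) := rfl

theorem proj_mul_self (i : ι) : (proj i * proj i : AddMonoid.End (⨁ i, C i)) = proj i := by
  apply AddMonoidHom.ext
  intro a
  show proj i (proj i a) = proj i a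
  rw [proj_apply, proj_apply, DirectSum.of_eq_same]

theorem proj_mul_ne (i j : ι) (h : i ≠ j) :
    (proj i * proj j : AddMonoid.End (⨁ i, C i)) = 0 := by
  apply AddMonoidHom.ext
  intro a
  show proj i (proj j a) = 0
  rw [proj_apply, proj_apply, DirectSum.of_eq_of_ne _ _ _ h, map_zero]

theorem proj_fin (a : ⨁ i, C i) : {i | proj i a ≠ 0}.Finite := by
  classical
  refine (DFinsupp.finite_support a).subset ?_
  intro i hi h
  apply hi
  rw [proj_apply]
  have : a i = 0 := h
  rw [this, map_zero]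

theorem of_ne {i : ι} {c : C i} (hc : c ≠ 0) : DirectSum.of C i c ≠ 0 := by
  intro h
  exact hc (DirectSum.of_injective i (by rw [h, map_zero]))

theorem exists_coord {a : ⨁ i, C i} (ha : a ≠ 0) : ∃ i, a i ≠ 0 := by
  by_contra h
  push Not at h
  exact ha (DFinsupp.ext h)

/-- A transfer endomorphism. -/
def transfer (i j : ι) (ρ : C i →+ C j) : AddMonoid.End (⨁ i, C i) :=
  (DirectSum.of C j).comp (ρ.comp (DFinsupp.evalAddMonoidHom i))

theorem proj_transfer (i j : ι) (ρ : C i →+ C j) (a : ⨁ i, C i) (h : ρ (a i) ≠ 0) :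
    proj j (transfer i j ρ a) ≠ 0 := by
  show proj j (DirectSum.of C j (ρ (a i))) ≠ 0
  rw [proj_apply, DirectSum.of_eq_same]
  exact of_ne h

end sums

/-- Infinite direct powers are always slender over their endomorphism rings. -/
theorem power_slender {ι : Type u} [Infinite ι] (C : Type*) [AddCommGroup C] :
    EndSlender (⨁ _ : ι, C) := by
  classical
  refine slender_of_independent (fun i => proj (C := fun _ : ι => C) i) proj_mul_self
    proj_mul_ne proj_fin ?_
  intro a ha
  obtain ⟨i, hi⟩ := exists_coord ha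
  refine Set.infinite_univ.mono ?_
  intro j _
  exact ⟨transfer i j (AddMonoidHom.id C), proj_transfer i j (AddMonoidHom.id C) a hi⟩

theorem exists_embedding (p : ℕ) (hp : p.Prime) {m m' : ℕ} (h : m ≤ m') :
    ∃ ρ : ZMod (p ^ m) →+ ZMod (p ^ m'), Injective ρ := by
  have hc : (zmultiplesHom (ZMod (p ^ m')) ((p ^ (m' - m) : ℕ) : ZMod (p ^ m')))
      ((p ^ m : ℕ) : ℤ) = 0 := by
    rw [zmultiplesHom_apply, natCast_zsmul, nsmul_eq_mul, ← Nat.cast_mul, ← pow_add,
      Nat.add_sub_cancel' h, ZMod.natCast_self]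
  refine ⟨ZMod.lift (p ^ m) ⟨zmultiplesHom (ZMod (p ^ m')) ((p ^ (m' - m) : ℕ) :
    ZMod (p ^ m')), hc⟩, ?_⟩
  rw [ZMod.lift_injective]
  intro k hk
  have hk' : k • ((p ^ (m' - m) : ℕ) : ZMod (p ^ m')) = 0 := hk
  rw [zsmul_eq_mul] at hk'
  have h1 : ((k * ((p ^ (m' - m) : ℕ) : ℤ) : ℤ) : ZMod (p ^ m')) = 0 := by
    push_cast
    push_cast at hk'
    exact hk'
  rw [ZMod.intCast_zmod_eq_zero_iff_dvd] at h1
  rw [ZMod.intCast_zmod_eq_zero_iff_dvd]
  have h2 : ((p ^ m' : ℕ) : ℤ) = ((p ^ m : ℕ) : ℤ) * ((p ^ (m' - m) : ℕ) : ℤ) := by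
    rw [← Nat.cast_mul, ← pow_add, Nat.add_sub_cancel' h]
  rw [h2] at h1
  have h3 : ((p ^ (m' - m) : ℕ) : ℤ) ≠ 0 := by
    exact_mod_cast (pow_pos hp.pos _).ne'
  exact Int.dvd_of_mul_dvd_mul_right h3 h1

/-- The classification for direct sums of cyclic `p`-groups. -/
theorem cyclic_iff (p : ℕ) (hp : p.Prime) {ι : Type u} (e : ι → ℕ) :
    EndSlender (⨁ i, ZMod (p ^ e i)) ↔ ∀ i, 1 ≤ e i → {j | e i ≤ e j}.Infinite := by
  classical
  constructor
  · intro hsl i0 hi0
    by_contra hfin
    have hfin' : {j | e i0 ≤ e j}.Finite := Set.not_infinite.1 hfin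
    obtain ⟨j0, hj0, hmax⟩ := Finset.exists_max_image hfin'.toFinset e ⟨i0, by simp⟩
    have hj0' : e i0 ≤ e j0 := by simpa using hj0
    let q : ℕ := p ^ (e j0 - 1)
    let U : AddSubgroup (⨁ i, ZMod (p ^ e i)) := (nsmulAddMonoidHom q).range
    let u0 : ⨁ i, ZMod (p ^ e i) := q • DirectSum.of (fun i => ZMod (p ^ e i)) j0 1
    have hu0 : u0 ≠ 0 := by
      intro h
      have h1 : u0 j0 = 0 := by rw [h]; rfl
      have h2 : u0 = DirectSum.of (fun i => ZMod (p ^ e i)) j0 ((q : ℕ) : ZMod (p ^ e j0)) := by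
        show q • DirectSum.of (fun i => ZMod (p ^ e i)) j0 1 = _
        rw [← map_nsmul, nsmul_one]
      rw [h2, DirectSum.of_eq_same, ZMod.natCast_eq_zero_iff] at h1
      have h3 : p ^ e j0 ∣ p ^ (e j0 - 1) := h1
      have h4 := Nat.pow_dvd_pow_iff_le_right hp.one_lt |>.1 h3
      omega
    have hUfin : (U : Set (⨁ i, ZMod (p ^ e i))).Finite := by
      haveI : ∀ i, NeZero (p ^ e i) := fun i => ⟨(pow_pos hp.pos _).ne'⟩
      let F : ((j : hfin'.toFinset) → ZMod (p ^ e j)) → ⨁ i, ZMod (p ^ e i) :=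
        fun c => ∑ j : hfin'.toFinset, DirectSum.of (fun i => ZMod (p ^ e i)) j (c j)
      refine (Set.finite_range F).subset ?_
      rintro _ ⟨a, rfl⟩
      refine ⟨fun j => (q • a) (j : ι), ?_⟩
      show ∑ j : hfin'.toFinset, DirectSum.of (fun i => ZMod (p ^ e i)) j ((q • a) (j : ι)) =
        q • a
      rw [Finset.sum_coe_sort hfin'.toFinset
        (fun j => DirectSum.of (fun i => ZMod (p ^ e i)) j ((q • a) j))]
      apply DFinsupp.ext
      intro k
      rw [DFinsupp.finsetSum_apply]
      by_cases hk : k ∈ hfin'.toFinset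
      · rw [Finset.sum_eq_single k]
        · exact DirectSum.of_eq_same _ _
        · intro j _ hjk
          exact DirectSum.of_eq_of_ne _ _ _ hjk.symm
        · intro h; exact absurd hk h
      · rw [Finset.sum_eq_zero]
        · have h1 : e k < e i0 := by
            by_contra h
            exact hk (by simpa using not_lt.1 h)
          have h2 : (q • a) k = ((q : ℕ) : ZMod (p ^ e k)) * a k := by
            rw [← nsmul_eq_mul]; rfl
          rw [h2]
          have h3 : ((q : ℕ) : ZMod (p ^ e k)) = 0 := by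
            rw [ZMod.natCast_eq_zero_iff]
            exact pow_dvd_pow p (by omega)
          rw [h3, zero_mul]
        · intro j hj
          refine DirectSum.of_eq_of_ne _ _ _ ?_
          intro h
          exact hk (h ▸ hj)
    exact not_slender_of_finite u0 hu0 U hUfin (fun r => by
      show r (q • _) ∈ U
      rw [map_nsmul]
      exact ⟨_, rfl⟩) hsl
  · intro h
    refine slender_of_independent (fun i => proj (C := fun i => ZMod (p ^ e i)) i) proj_mul_self
      proj_mul_ne proj_fin ?_
    intro a ha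
    obtain ⟨i, hi⟩ := exists_coord ha
    have he : 1 ≤ e i := by
      by_contra h0
      have h1 : e i = 0 := by omega
      haveI : Subsingleton (ZMod (p ^ e i)) := by
        rw [h1, pow_zero]
        infer_instance
      exact hi (Subsingleton.elim _ _)
    refine (h i he).mono ?_
    intro j hj
    obtain ⟨ρ, hρ⟩ := exists_embedding p hp hj
    refine ⟨transfer i j ρ, proj_transfer i j ρ a ?_⟩
    intro h0
    exact hi (hρ (by rw [h0, map_zero]))

/-- **Main result.** (1) A direct sum of cyclic `p`-groups `⨁ ℤ/p^{e_i}` is slender over its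
endomorphism ring iff for each nonzero summand `ℤ/p^{e_i}` infinitely many summands have order at
least `p^{e_i}`. (2) Each infinite direct power `C^{(ι)}` of an abelian group is slender over its
endomorphism ring. (3) An abelian group with a nonzero finite fully invariant subgroup is not
slender over its endomorphism ring. -/
theorem result (p : ℕ) (hp : p.Prime) :
    (∀ (ι : Type u) (e : ι → ℕ),
      EndSlender (⨁ i, ZMod (p ^ e i)) ↔ ∀ i, 1 ≤ e i → {j | e i ≤ e j}.Infinite) ∧
    (∀ (ι : Type u) (C : Type u) [Infinite ι] [AddCommGroup C], EndSlender (⨁ _ : ι, C)) ∧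
    (∀ (A : Type u) [AddCommGroup A] (U : AddSubgroup A), (U : Set A).Finite → U ≠ ⊥ →
      (∀ r : AddMonoid.End A, ∀ u ∈ U, r u ∈ U) → ¬ EndSlender A) := by
  refine ⟨fun ι e => cyclic_iff p hp e, fun ι C _ _ => power_slender C, ?_⟩
  intro A _ U hU hne hr
  obtain ⟨u0, hu0⟩ := AddSubgroup.ne_bot_iff_exists_ne_zero.1 hne
  exact not_slender_of_finite (u0 : A) (fun h0 => hu0 (Subtype.ext h0)) U hU
    (fun r => hr r _ u0.2)

end Pool.Agent.Results.MP_fa2e48_al.SumsOfCyclics
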